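import Pool.Agent.Y359.LE.Main
import Pool.Agent.Y359.DB.Growth

/-!
Sums and products along sets of tuples.
-/

set_option autoImplicit false

namespace Pool.Agent.Y359.LE

open Finset Pool.Agent.Y359.DB
open scoped Pointwise

/-- sums along a set of tuples and the energy -/
theorem sums_along (A : Finset ℤ) (m : ℕ) (H : Finset (Fin m → ℤ))
    (hH : ∀ f ∈ H, ∀ i, f i ∈ A) :
    H.card ^ 2 ≤ (H.image fun f => ∑ i, f i).card * En A m := by
  set Z := H.image fun f => ∑ i, f i with hZ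
  have h1 : H.card = ∑ z ∈ Z, (H.filter fun f => ∑ i, f i = z).card :=
    Finset.card_eq_sum_card_image (fun f : Fin m → ℤ => ∑ i, f i) H
  have h2 : (∑ z ∈ Z, (H.filter fun f => ∑ i, f i = z).card) ^ 2 ≤
      Z.card * ∑ z ∈ Z, (H.filter fun f => ∑ i, f i = z).card ^ 2 := by
    have h3 := sq_sum_le_card_mul_sum_sq (s := Z)
      (f := fun z => (((H.filter fun f => ∑ i, f i = z).card : ℕ) : ℤ))
    exact_mod_cast h3
  rw [h1]
  refine h2.trans (Nat.mul_le_mul_left _ ?_)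
  rw [En_eq A m (Z ∪ sm A m) subset_union_right]
  calc ∑ z ∈ Z, (H.filter fun f => ∑ i, f i = z).card ^ 2
      ≤ ∑ z ∈ Z, rep A m z ^ 2 := by
        refine Finset.sum_le_sum fun z _ => Nat.pow_le_pow_left ?_ 2
        unfold rep
        apply Finset.card_le_card
        intro f hf
        obtain ⟨h3, h4⟩ := mem_filter.1 hf
        exact mem_filter.2 ⟨Fintype.mem_piFinset.2 (hH f h3), h4⟩
    _ ≤ ∑ z ∈ Z ∪ sm A m, rep A m z ^ 2 := Finset.sum_le_sum_of_subset subset_union_left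

theorem along (k : ℕ) (hk : 1 ≤ k) (ε b : ℝ) (hε : 0 < ε) (hb : 0 < b) :
    ∃ M : ℕ, 1 ≤ M ∧ ∃ C : ℝ, 0 < C ∧ ∀ A : Finset ℤ, ∃ A' ⊆ A, A.card ≤ 2 * A'.card ∧
      ((∀ m : ℕ, M ≤ m → ∀ H : Finset (Fin m → ℤ), (∀ f ∈ H, ∀ i, f i ∈ A') →
        (H.card : ℝ) ^ 2 ≤ (A.card : ℝ) ^ (2 * (m : ℝ) - b) *
          ((H.image fun f => ∑ i, f i).card : ℝ)) ∨
      (∀ H : Finset (Fin k → ℤ), (∀ f ∈ H, (∀ i, f i ∈ A') ∧ ∏ i, f i ≠ 0) →
        (H.card : ℝ) ≤ C * (A.card : ℝ) ^ ε * ((H.image fun f => ∏ i, f i).card : ℝ))) := by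
  obtain ⟨M, hM, C, hC, h⟩ := decomposition k hk ε b hε hb
  refine ⟨M, hM, C, hC, ?_⟩
  intro A
  obtain ⟨B, hB, h1, h2⟩ := h A
  have hcard : (A \ B).card + B.card = A.card := Finset.card_sdiff_add_card_eq_card hB
  by_cases hc : A.card ≤ 2 * B.card
  · refine ⟨B, hB, hc, Or.inl ?_⟩
    intro m hm H hH
    have h3 : (H.card : ℝ) ^ 2 ≤ ((H.image fun f => ∑ i, f i).card : ℝ) * En B m := by
      exact_mod_cast sums_along B m H hH
    refine h3.trans ?_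
    rw [mul_comm]
    exact mul_le_mul_of_nonneg_right (h1 m hm) (Nat.cast_nonneg _)
  · refine ⟨A \ B, Finset.sdiff_subset, by omega, Or.inr ?_⟩
    intro H hH
    have h3 := card_le_image_mul (A \ B) H (C * (A.card : ℝ) ^ ε) hH h2
    rwa [mul_comm] at h3

end Pool.Agent.Y359.LE
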