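import Pool.Agent.Y359.LE.CS
import Pool.Agent.H217R3.AK.Bsg

/-!
Higher additive energies; a large energy gives a large subset with few sums.
-/

set_option autoImplicit false

namespace Pool.Agent.Y359.LE

open Finset
open scoped Pointwise

/-- the number of `m`-tuples of elements of `A` with sum `z` -/
def rep (A : Finset ℤ) (m : ℕ) (z : ℤ) : ℕ :=
  ((Fintype.piFinset fun _ : Fin m => A).filter fun f => ∑ i, f i = z).card

/-- the `m`-fold additive energy -/
def En (A : Finset ℤ) (m : ℕ) : ℕ :=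
  (((Fintype.piFinset fun _ : Fin m => A) ×ˢ (Fintype.piFinset fun _ : Fin m => A)).filter
    fun p => ∑ i, p.1 i = ∑ i, p.2 i).card

/-- the sums of `m` elements -/
def sm (A : Finset ℤ) (m : ℕ) : Finset ℤ :=
  (Fintype.piFinset fun _ : Fin m => A).image fun f => ∑ i, f i

theorem rep_ne {A : Finset ℤ} {m : ℕ} {z : ℤ} (h : rep A m z ≠ 0) : z ∈ sm A m := by
  unfold rep at h
  rw [Finset.card_ne_zero] at h
  obtain ⟨f, hf⟩ := h
  obtain ⟨h1, h2⟩ := mem_filter.1 hf
  exact mem_image.2 ⟨f, h1, h2⟩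

theorem rep_total (A : Finset ℤ) (m : ℕ) (Z : Finset ℤ) (hZ : sm A m ⊆ Z) :
    ∑ z ∈ Z, rep A m z = A.card ^ m := by
  have h1 := Finset.card_eq_sum_card_fiberwise (f := fun f : Fin m → ℤ => ∑ i, f i)
    (s := Fintype.piFinset fun _ : Fin m => A) (t := Z)
    (fun f hf => hZ (mem_image_of_mem _ (mem_coe.1 hf)))
  rw [Fintype.card_piFinset] at h1
  simp only [Finset.prod_const, Finset.card_univ, Fintype.card_fin] at h1
  exact h1.symm

theorem rep_le (A : Finset ℤ) (m : ℕ) (z : ℤ) : rep A m z ≤ A.card ^ m := by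
  unfold rep
  refine (Finset.card_filter_le _ _).trans ?_
  rw [Fintype.card_piFinset]
  simp

theorem En_eq (A : Finset ℤ) (m : ℕ) (Z : Finset ℤ) (hZ : sm A m ⊆ Z) :
    En A m = ∑ z ∈ Z, rep A m z ^ 2 := by
  unfold En
  rw [Finset.card_eq_sum_card_fiberwise
    (f := fun p : (Fin m → ℤ) × (Fin m → ℤ) => ∑ i, p.1 i) (t := Z)]
  · refine Finset.sum_congr rfl fun z _ => ?_
    unfold rep
    rw [sq, ← Finset.card_product]
    congr 1
    ext ⟨x, y⟩
    simp only [mem_filter, mem_product]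
    constructor
    · rintro ⟨⟨⟨h1, h2⟩, h3⟩, h4⟩
      exact ⟨⟨h1, h4⟩, h2, h3 ▸ h4⟩
    · rintro ⟨⟨h1, h4⟩, h2, h3⟩
      exact ⟨⟨⟨h1, h2⟩, h4.trans h3.symm⟩, h4⟩
  · rintro ⟨x, y⟩ hxy
    have hxy' := (mem_product.1 (mem_filter.1 (mem_coe.1 hxy)).1).1
    exact hZ (mem_image_of_mem _ hxy')

theorem rep_add (A : Finset ℤ) (m n : ℕ) (X : Finset ℤ) (hX : sm A m ⊆ X) (z : ℤ) :
    rep A (m + n) z = ∑ w ∈ X, rep A m w * rep A n (z - w) := by
  have h1 : rep A (m + n) z =
      (((Fintype.piFinset fun _ : Fin m => A) ×ˢ (Fintype.piFinset fun _ : Fin n => A)).filter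
        fun p => ∑ i, p.1 i + ∑ i, p.2 i = z).card := by
    unfold rep
    symm
    apply Finset.card_bij (fun p _ => Fin.append p.1 p.2)
    · rintro ⟨x, y⟩ h
      simp only [mem_filter, mem_product, Fintype.mem_piFinset] at h ⊢
      obtain ⟨⟨h1, h2⟩, h3⟩ := h
      refine ⟨?_, ?_⟩
      · intro i
        refine Fin.addCases (fun j => ?_) (fun j => ?_) i
        · rw [Fin.append_left]; exact h1 j
        · rw [Fin.append_right]; exact h2 j
      · rw [Fin.sum_univ_add]
        simp only [Fin.append_left, Fin.append_right]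
        exact h3
    · rintro ⟨x, y⟩ _ ⟨x', y'⟩ _ h
      exact (Fin.appendEquiv m n).injective h
    · intro f hf
      simp only [mem_filter, Fintype.mem_piFinset] at hf
      refine ⟨(fun i => f (Fin.castAdd n i), fun i => f (Fin.natAdd m i)), ?_, ?_⟩
      · simp only [mem_filter, mem_product, Fintype.mem_piFinset]
        refine ⟨⟨fun i => hf.1 _, fun i => hf.1 _⟩, ?_⟩
        rw [← Fin.sum_univ_add]
        exact hf.2
      · exact (Fin.appendEquiv m n).apply_symm_apply f
  rw [h1, Finset.card_eq_sum_card_fiberwise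
    (f := fun p : (Fin m → ℤ) × (Fin n → ℤ) => ∑ i, p.1 i) (t := X)]
  · refine Finset.sum_congr rfl fun w _ => ?_
    unfold rep
    rw [← Finset.card_product]
    congr 1
    ext ⟨x, y⟩
    simp only [mem_filter, mem_product]
    constructor
    · rintro ⟨⟨⟨h1, h2⟩, h3⟩, h4⟩
      exact ⟨⟨h1, h4⟩, h2, by linarith⟩
    · rintro ⟨⟨h1, h4⟩, h2, h3⟩
      exact ⟨⟨⟨h1, h2⟩, by linarith⟩, h4⟩
  · rintro ⟨x, y⟩ hxy
    have hxy' := (mem_product.1 (mem_filter.1 (mem_coe.1 hxy)).1).1
    exact hX (mem_image_of_mem _ hxy')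

theorem sm_add (A : Finset ℤ) (m n : ℕ) : sm A (m + n) ⊆ sm A m + sm A n := by
  intro z hz
  obtain ⟨f, hf, rfl⟩ := mem_image.1 hz
  rw [Fintype.mem_piFinset] at hf
  rw [Fin.sum_univ_add]
  exact Finset.add_mem_add
    (mem_image.2 ⟨fun i => f (Fin.castAdd n i), Fintype.mem_piFinset.2 fun i => hf _, rfl⟩)
    (mem_image.2 ⟨fun i => f (Fin.natAdd m i), Fintype.mem_piFinset.2 fun i => hf _, rfl⟩)

theorem En_double (A : Finset ℤ) (m : ℕ) :
    En A (m + m) = ∑ z ∈ sm A m + sm A m, (∑ w ∈ sm A m, rep A m w * rep A m (z - w)) ^ 2 := by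
  rw [En_eq A (m + m) _ (sm_add A m m)]
  refine Finset.sum_congr rfl fun z _ => ?_
  rw [rep_add A m m (sm A m) (Finset.Subset.refl _)]

theorem En_young (A : Finset ℤ) (m : ℕ) : En A (m + m) ≤ A.card ^ (2 * m) * En A m := by
  rw [En_double]
  set X := sm A m with hX
  have h1 : ∀ z, (∑ w ∈ X, rep A m w * rep A m (z - w)) ^ 2 ≤
      A.card ^ m * ∑ w ∈ X, rep A m w * rep A m (z - w) ^ 2 := by
    intro z
    rw [← rep_total A m X (Finset.Subset.refl _)]
    apply sum_sq_le_sum_mul_sum_of_sq_eq_mul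
    · intro w _; exact Nat.zero_le _
    · intro w _; exact Nat.zero_le _
    · intro w _; ring
  calc ∑ z ∈ X + X, (∑ w ∈ X, rep A m w * rep A m (z - w)) ^ 2
      ≤ ∑ z ∈ X + X, A.card ^ m * ∑ w ∈ X, rep A m w * rep A m (z - w) ^ 2 :=
        Finset.sum_le_sum fun z _ => h1 z
    _ = A.card ^ m * ∑ w ∈ X, rep A m w * ∑ z ∈ X + X, rep A m (z - w) ^ 2 := by
        rw [← Finset.mul_sum, Finset.sum_comm]
        congr 1
        refine Finset.sum_congr rfl fun w _ => ?_
        rw [Finset.mul_sum]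
    _ = A.card ^ m * ∑ w ∈ X, rep A m w * En A m := by
        congr 1
        refine Finset.sum_congr rfl fun w hw => ?_
        congr 1
        rw [En_eq A m ((X + X).image fun z => z - w), Finset.sum_image]
        · intro a _ b _ hab
          have : a - w = b - w := hab
          linarith
        · intro y hy
          exact mem_image.2 ⟨y + w, Finset.add_mem_add hy hw, by ring⟩
    _ = A.card ^ (2 * m) * En A m := by
        rw [← Finset.sum_mul, rep_total A m X (Finset.Subset.refl _)]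
        ring

theorem En_one (A : Finset ℤ) : En A 1 = A.card := by
  unfold En
  have : ((Fintype.piFinset fun _ : Fin 1 => A) ×ˢ (Fintype.piFinset fun _ : Fin 1 => A)).filter
      (fun p => ∑ i, p.1 i = ∑ i, p.2 i) = A.image fun a => (fun _ => a, fun _ => a) := by
    ext ⟨x, y⟩
    simp only [mem_filter, mem_product, Fintype.mem_piFinset, mem_image, Prod.mk.injEq,
      Fin.sum_univ_one]
    constructor
    · rintro ⟨⟨h1, _⟩, h3⟩
      refine ⟨x 0, h1 0, ?_, ?_⟩
      · ext i; rw [Fin.fin_one_eq_zero i]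
      · ext i; rw [Fin.fin_one_eq_zero i]; exact h3
    · rintro ⟨a, ha, rfl, rfl⟩
      exact ⟨⟨fun _ => ha, fun _ => ha⟩, rfl⟩
  rw [this, Finset.card_image_of_injective]
  intro a b hab
  have h := congrArg Prod.fst hab
  exact congrFun h 0

theorem energy_le_cube (s : Finset ℤ) : s.addEnergy s ≤ s.card ^ 3 := by
  rw [energy_rs s s (s + s) (Finset.Subset.refl _)]
  have h1 : ∀ z, rs s s z ≤ s.card := by
    intro z
    unfold rs
    apply Finset.card_le_card_of_injOn (fun x => x.1)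
    · intro x hx
      exact (mem_product.1 (mem_filter.1 hx).1).1
    · rintro ⟨a, b⟩ hx ⟨a', b'⟩ hx' h
      have h2 := (mem_filter.1 (mem_coe.1 hx)).2
      have h3 := (mem_filter.1 (mem_coe.1 hx')).2
      simp only at h h2 h3
      ext
      · exact h
      · show b = b'
        linarith
  have h2 : ∑ z ∈ s + s, rs s s z = s.card ^ 2 := by
    have h3 := Finset.card_eq_sum_card_fiberwise (f := fun x : ℤ × ℤ => x.1 + x.2)
      (s := s ×ˢ s) (t := s + s) (fun x hx => by
        have := mem_product.1 (mem_coe.1 hx)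
        exact Finset.add_mem_add this.1 this.2)
    rw [Finset.card_product, ← sq] at h3
    exact h3.symm
  calc ∑ z ∈ s + s, rs s s z ^ 2 ≤ ∑ z ∈ s + s, s.card * rs s s z := by
        refine Finset.sum_le_sum fun z _ => ?_
        rw [sq]
        exact Nat.mul_le_mul_right _ (h1 z)
    _ = s.card ^ 3 := by rw [← Finset.mul_sum, h2]; ring

theorem rep_one (A : Finset ℤ) (z : ℤ) : rep A 1 z = if z ∈ A then 1 else 0 := by
  unfold rep
  split_ifs with h
  · rw [Finset.card_eq_one]
    refine ⟨fun _ => z, ?_⟩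
    ext f
    simp only [mem_filter, Fintype.mem_piFinset, Fin.sum_univ_one, mem_singleton]
    constructor
    · rintro ⟨_, h2⟩
      ext i; rw [Fin.fin_one_eq_zero i]; exact h2
    · rintro rfl
      exact ⟨fun _ => h, rfl⟩
  · rw [Finset.card_eq_zero, Finset.filter_eq_empty_iff]
    intro f hf h2
    rw [Fintype.mem_piFinset] at hf
    rw [Fin.sum_univ_one] at h2
    exact h (h2 ▸ hf 0)

/-- a popular translate -/
theorem popular (A : Finset ℤ) (n : ℕ) (P : Finset ℤ) (hA : A.Nonempty) :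
    ∃ w : ℤ, ∑ z ∈ P, rep A (n + 1) z ≤ A.card ^ n * (A.filter fun a => a + w ∈ P).card := by
  set X := sm A n with hX
  have hXne : X.Nonempty := by
    obtain ⟨a, ha⟩ := hA
    exact ⟨_, mem_image.2 ⟨fun _ => a, Fintype.mem_piFinset.2 fun _ => ha, rfl⟩⟩
  obtain ⟨w, hw, hmax⟩ := Finset.exists_max_image X
    (fun w => (A.filter fun a => a + w ∈ P).card) hXne
  refine ⟨w, ?_⟩
  have h1 : ∀ y : ℤ, ∑ z ∈ P, rep A 1 (z - y) = (A.filter fun a => a + y ∈ P).card := by
    intro y
    simp only [rep_one]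
    rw [← Finset.card_filter]
    apply Finset.card_bij (fun z _ => z - y)
    · intro z hz
      obtain ⟨h2, h3⟩ := mem_filter.1 hz
      exact mem_filter.2 ⟨h3, by rw [sub_add_cancel]; exact h2⟩
    · intro z _ z' _ h
      linarith
    · intro a ha
      obtain ⟨h2, h3⟩ := mem_filter.1 ha
      exact ⟨a + y, mem_filter.2 ⟨h3, by rw [add_sub_cancel_right]; exact h2⟩, by ring⟩
  calc ∑ z ∈ P, rep A (n + 1) z = ∑ z ∈ P, ∑ y ∈ X, rep A n y * rep A 1 (z - y) :=
        Finset.sum_congr rfl fun z _ => rep_add A n 1 X (Finset.Subset.refl _) z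
    _ = ∑ y ∈ X, rep A n y * ∑ z ∈ P, rep A 1 (z - y) := by
        rw [Finset.sum_comm]
        refine Finset.sum_congr rfl fun y _ => ?_
        rw [Finset.mul_sum]
    _ ≤ ∑ y ∈ X, rep A n y * (A.filter fun a => a + w ∈ P).card := by
        refine Finset.sum_le_sum fun y hy => Nat.mul_le_mul_left _ ?_
        rw [h1 y]
        exact hmax y hy
    _ = _ := by rw [← Finset.sum_mul, rep_total A n X (Finset.Subset.refl _)]

end Pool.Agent.Y359.LE
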